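import Pool.Agent.W_4481e3_q87.GoR
import Pool.Agent.W_4481e3_tab.T5

/-!
Tree s22o5, data 12.
-/

namespace Pool.Agent.W_4481e3_rt.s22o5

open Pool.Agent.W_4481e3_q25.EvR

theorem k254 : ckO Pool.Agent.W_4481e3_tab.T5.tab 55520 88320 134217728 524288 742195 1048576 15 2621440 524288 2621440 524288 509833068 533284782 1934934 3869867 268404031 268439498 16777216 16777216 1059062 1059062 0x102004c04028c204028c03004c05038c2104004c04028c204028c05038c104028c04070c206000c06000c21212104028c04028c204070c04004c04004c04004c21206000c04004c04050c06028c21206000c07000c106038c07000c207000c07000c07038c1212104004c04004c2aa05001f407001f2307001f06001f24104004c04004c204004c04004c04004c404004c04004c42104004c0800bf10800bf421380b817766b704004c04004c208001f08001f40a01fd04004c04004c2431400005c00005c432104004c04004c04004c2104050c204004c04004c207001f06001f208001f404004c04004c404004c04004c42310b008d08001f07001f08001f2140a01fd04004c04004c04004c2143400005c00005c4304004c04004c404004c304004c07103c1205004c06001f404004c307001fa08001f3404004c04004c43407000c06028c207038c07000c21200005c00005c43121212 = true := by decide +kernel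

theorem k257 : ckO Pool.Agent.W_4481e3_tab.T5.tab 55520 88320 134217728 524288 742195 1048576 22 2621440 524288 2621440 524288 511768002 526112522 3586130 3586130 268435456 268435456 16777216 16777216 1059062 1059062 0x102000c02000c02000c03004c21202000c03000c103000c03000c04028c204028c05038c05038c121203028c03000c03028c040a0c12103004c04028c204028c06000c06000c12105101c05038c206000c06000c06000c121204028c040e0c106000c06000c06000c21204028c06000c204028c07038c06038c07038c212106000c07000c107000c07103c12829ae7a722707000c07000c207038c07038c08103c2107038c07038c208103c08038c08103c2107038c08038c208038c08038c204004c408038c08038c204004c400000707038c08038c207038c08038c2000007312121aa3a05004ca05004c314aa305004c434805004c04004c05004c05004c3214304004c03003c404004c3405004c05004c05004c2104004c400005c00005c4304004c43212106000c06000c207000c07000c2107000c07000c207000c07000c21207000c07103c107000c07103c1207000c07000c07000c2107000c08103c1208103c09104c109101c20a000c09101c20a000c09101c2109104c2109104c09101c09101c212108103c08000c208038c08000c209101c09104c2108103c08103c08038c2121282b097a7867107000c07000c07000c2107038c07038c07038c21208000c08000c208103c08038c08038c2108038c08038c08038c212108000c08038c208038c08038c08038c2108038c08038c08038c2121282d5c7a6ee712121828447a54172121815fa7b4dc7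 = true := by decide +kernel

theorem k260 : ckO Pool.Agent.W_4481e3_tab.T5.tab 55520 88320 134217728 524288 742195 1048576 5 2621440 524288 2621440 524288 515354132 515354132 7172260 7172260 268435456 268435456 16777216 16777216 1059062 1059062 0x102000c02000c02000c1202000c02000c03000c202000c03000c2121 = true := by decide +kernel

theorem k263 : ckO Pool.Agent.W_4481e3_tab.T5.tab 55520 88320 134217728 524288 742195 1048576 4 2621440 524288 2621440 524288 522526392 493837352 14344520 14344520 268435456 268435456 16777216 16777216 1059062 1059062 0x100000c00003c010a0c1200003c01004c01004c121 = true := by decide +kernel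

theorem k265 : ckO Pool.Agent.W_4481e3_tab.T5.tab 55520 88320 134217728 524288 742195 1048576 8 2621440 524288 2621440 524288 493837352 508181872 14344520 28689040 268435456 268435456 16777216 16777216 1059062 1059062 0x100000c00000c00003c00003c00027c00003c00027c02004c2121212 = true := by decide +kernel

end Pool.Agent.W_4481e3_rt.s22o5
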